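import Pool.Agent.R240.Alm2

set_option autoImplicit false

/-! # Parameters at which `c ^ (n - 1)` is a cube root of unity -/

namespace Pool.Agent.K1H32.MB

open Complex Metric Set Filter Topology MeasureTheory N62a1eb23
open Pool.Agent.H712R2 Pool.Agent.H713R2 Pool.Agent.H713R2.AR
open Pool.Agent.H462R2.AD (hyp esc esc2 esc3)

/-- If `c ^ (n - 1)` is a cube root of unity, `c` is in the Multibrot set and there is no
attracting cycle, then the critical value is mapped onto a fixed point. -/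
theorem cube_fixed {n : ℕ} (hn : 2 ≤ n) {c : ℂ} (h3 : c ^ (3 * (n - 1)) = 1)
    (hcM : c ∈ multibrotSet n) (hno : c ∉ hyp n) :
    6 ∣ n ∧ P n 3 c = P n 2 c := by
  have hc1 : ‖c‖ = 1 := by
    have h1 : ‖c‖ ^ (3 * (n - 1)) = 1 := by rw [← norm_pow, h3, norm_one]
    exact (pow_eq_one_iff_of_nonneg (norm_nonneg c) (by omega)).mp h1
  have hc0 : c ≠ 0 := by
    intro h0; rw [h0, norm_zero] at hc1; norm_num at hc1
  have hb := (mem_multibrot_iff hn c).mp hcM
  set ζ := c ^ (n - 1) with hζ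
  have hζ3 : ζ ^ 3 = 1 := by rw [hζ, ← pow_mul, mul_comm]; exact h3
  have hcn : c ^ n = c * ζ := by
    rw [hζ]
    conv_lhs => rw [show n = (n - 1) + 1 by omega]
    rw [pow_succ]; ring
  have hP1 : P n 1 c = c := P_one hn c
  have hP2 : P n 2 c = c * (ζ + 1) := by
    rw [P_succ, hP1, hcn]; ring
  by_cases hζ1 : ζ = 1
  · exfalso
    apply esc2 hn hc1 hb 2
    rw [hP2, hζ1]; norm_num
  have hq : ζ ^ 2 + ζ + 1 = 0 := by
    have h1 : (ζ - 1) * (ζ ^ 2 + ζ + 1) = 0 := by linear_combination hζ3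
    exact (mul_eq_zero.mp h1).resolve_left (sub_ne_zero.mpr hζ1)
  have hζn : ‖ζ‖ = 1 := by rw [hζ, norm_pow, hc1, one_pow]
  set κ := ζ + 1 with hκ
  have hκ2 : κ ^ 2 = ζ := by rw [hκ]; linear_combination hq
  have hκ6 : κ ^ 6 = 1 := by
    calc κ ^ 6 = (κ ^ 2) ^ 3 := by ring
      _ = 1 := by rw [hκ2, hζ3]
  have hP3 : P n 3 c = c * (ζ * κ ^ n + 1) := by
    rw [P_succ, hP2, mul_pow, hcn]; ring
  have hκn : κ ^ n = κ ^ (n % 6) := by
    conv_lhs => rw [← Nat.div_add_mod n 6, pow_add, pow_mul, hκ6, one_pow, one_mul]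
  have hmod : n % 6 = 0 ∨ n % 6 = 1 ∨ n % 6 = 2 ∨ n % 6 = 3 ∨ n % 6 = 4 ∨ n % 6 = 5 := by omega
  rcases hmod with h | h | h | h | h | h
  · refine ⟨Nat.dvd_of_mod_eq_zero h, ?_⟩
    rw [hP3, hκn, h, hP2]; ring
  · exfalso
    have hP30 : P n 3 c = 0 := by
      rw [hP3, hκn, h, hκ]
      have : ζ * (ζ + 1) ^ 1 + 1 = 0 := by linear_combination hq
      rw [this, mul_zero]
    have hno' : ¬ ∃ m z, IsAttractingCycle (fun z => z ^ n + c) m z := fun hh => hno hh
    exact P_ne_zero hn hno' (n := 3) (by norm_num) hP30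
  · exfalso
    have hP3' : P n 3 c = c * (-ζ) := by
      rw [hP3, hκn, h, hκ2]
      congr 1
      linear_combination hq
    have hP4 : P n 4 c = c * (ζ * (-ζ) ^ n + 1) := by
      rw [P_succ, hP3', mul_pow, hcn]; ring
    have h6 : (-ζ) ^ 6 = 1 := by
      calc (-ζ) ^ 6 = (ζ ^ 3) ^ 2 := by ring
        _ = 1 := by rw [hζ3, one_pow]
    have h7 : (-ζ) ^ n = ζ ^ 2 := by
      conv_lhs => rw [← Nat.div_add_mod n 6, pow_add, pow_mul, h6, one_pow, one_mul, h]
      ring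
    apply esc2 hn hc1 hb 4
    rw [hP4, h7]
    have : ζ * ζ ^ 2 + 1 = 2 := by linear_combination hζ3
    rw [this]
  · exfalso
    have hκ3 : κ ^ 3 = -1 := by
      calc κ ^ 3 = κ ^ 2 * κ := by ring
        _ = -1 := by rw [hκ2, hκ]; linear_combination hq
    apply esc3 (by omega) hc1 hb 3 (u := 1 - ζ)
    · rw [hP3, hκn, h, hκ3]; ring
    · have : (1 - ζ) ^ 2 = -3 * ζ := by linear_combination hq
      rw [this, norm_mul, hζn]
      simp
  · exfalso
    apply esc2 hn hc1 hb 3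
    rw [hP3, hκn, h]
    have : ζ * κ ^ 4 + 1 = 2 := by
      calc ζ * κ ^ 4 + 1 = ζ * (κ ^ 2) ^ 2 + 1 := by ring
        _ = 2 := by rw [hκ2]; linear_combination hζ3
    rw [this]
  · exfalso
    have hκ5 : κ ^ 5 = -ζ := by
      calc κ ^ 5 = (κ ^ 2) ^ 2 * κ := by ring
        _ = -ζ := by rw [hκ2, hκ]; linear_combination ζ * hq
    apply esc3 (by omega) hc1 hb 3 (u := 1 - ζ ^ 2)
    · rw [hP3, hκn, h, hκ5]; ring
    · have : (1 - ζ ^ 2) ^ 2 = -3 * ζ ^ 2 := by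
        linear_combination (ζ ^ 2 - ζ) * hq + hq - hζ3 * 0
      rw [this, norm_mul, norm_pow, hζn]
      simp

/-- At a root of unity, all but finitely many exceptional degrees are multiples of `6` in which the
critical value is mapped onto a fixed point. -/
theorem root_fixed {c : ℂ} {k : ℕ} (hk : 0 < k) (hck : c ^ k = 1) :
    {n | n ∈ Pool.Agent.R240.Alm.bad c ∧
      ¬ (6 ∣ n ∧ (c ^ n + c) ^ n + c = c ^ n + c)}.Finite := by
  apply (Pool.Agent.R240.Alm.bad_root hk hck).subset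
  rintro n ⟨hn, h1⟩
  refine ⟨hn, fun h3 => h1 ?_⟩
  obtain ⟨h4, h5⟩ := cube_fixed hn.1 h3 hn.2.1 hn.2.2
  refine ⟨h4, ?_⟩
  have e1 : P n 2 c = c ^ n + c := by
    rw [P_succ, P_one hn.1]
  have e2 : P n 3 c = (c ^ n + c) ^ n + c := by
    rw [P_succ, e1]
  rw [← e2, h5, e1]

end Pool.Agent.K1H32.MB
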