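import Pool.Agent.K1H32.MB.Rot

set_option autoImplicit false

/-! # Local connectivity at a point and local connectivity; the two exceptional sets of degrees -/

open Complex Metric Set Filter Topology MeasureTheory
open N62a1eb23

namespace Pool.Agent.K1H32.MB

open Pool.Agent.R240.Alm (LCAt bad lc_zero lc_one lc_compl lc_interior att_interior E_sub)
open Pool.Agent.H462R2.AD (hyp)

/-- A closed set is locally connected iff it is so at every point of the plane. -/
theorem lc_iff {K : Set ℂ} (hK : IsClosed K) : LocallyConnectedSpace K ↔ ∀ c, LCAt K c := by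
  rw [locallyConnectedSpace_iff_subsets_isOpen_isConnected]
  constructor
  · intro h c U hU
    by_cases hc : c ∈ K
    · obtain ⟨W, hWU, hWo, hcW, hWc⟩ := h ⟨c, hc⟩ (Subtype.val ⁻¹' interior U)
        ((isOpen_interior.preimage continuous_subtype_val).mem_nhds
          (mem_interior_iff_mem_nhds.2 hU))
      obtain ⟨O, hO, rfl⟩ := isOpen_induced_iff.1 hWo
      refine ⟨O ∩ interior U, inter_subset_right.trans interior_subset, hO.inter isOpen_interior,
        ⟨hcW, mem_interior_iff_mem_nhds.2 hU⟩, ?_⟩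
      have h1 : K ∩ (O ∩ interior U) = Subtype.val '' (Subtype.val ⁻¹' O : Set K) := by
        ext x
        constructor
        · rintro ⟨hx, hxO, -⟩
          exact ⟨⟨x, hx⟩, hxO, rfl⟩
        · rintro ⟨y, hy, rfl⟩
          exact ⟨y.2, hy, hWU hy⟩
      rw [h1]
      exact hWc.isPreconnected.image _ continuous_subtype_val.continuousOn
    · exact lc_compl hK hc U hU
  · intro h x U hU
    obtain ⟨O, hO, hOU⟩ := mem_nhds_induced _ _ _ |>.1 hU
    obtain ⟨V, hVO, hVo, hxV, hVc⟩ := h x O hO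
    refine ⟨Subtype.val ⁻¹' V, (preimage_mono hVO).trans hOU, hVo.preimage continuous_subtype_val,
      hxV, ⟨x, hxV⟩, ?_⟩
    rw [← Topology.IsInducing.subtypeVal.isPreconnected_image, Subtype.image_preimage_coe]
    exact hVc

theorem closed (n : ℕ) : IsClosed (multibrotSet n) := by
  rcases Nat.lt_or_ge n 2 with h | h
  · have h3 : n = 0 ∨ n = 1 := by omega
    rcases h3 with rfl | rfl
    · have : multibrotSet 0 = univ := by
        rw [eq_univ_iff_forall]
        intro x hx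
        have h1 : ∀ k : ℕ, (fun z : ℂ => z ^ 0 + x)^[k + 1] 0 = 1 + x := by
          intro k
          rw [Function.iterate_succ_apply']
          simp
        have h2 := hx.comp (tendsto_add_atTop_nat 1)
        have h3 : Tendsto (fun _ : ℕ => 1 + x) atTop (Bornology.cobounded ℂ) := h2.congr h1
        exact not_tendsto_const_atTop ‖1 + x‖ (atTop : Filter ℕ)
          (tendsto_norm_cobounded_atTop.comp h3)
      rw [this]
      exact isClosed_univ
    · have hsub : multibrotSet 1 ⊆ {0} := by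
        intro x hx
        by_contra h0
        have h0' : x ≠ 0 := h0
        apply hx
        have h1 : ∀ k : ℕ, (fun z : ℂ => z ^ 1 + x)^[k] 0 = k * x := by
          intro k
          induction k with
          | zero => simp
          | succ k ih =>
            rw [Function.iterate_succ_apply', ih]
            push_cast
            ring
        rw [← tendsto_norm_atTop_iff_cobounded]
        have h2 : Tendsto (fun k : ℕ => (k : ℝ) * ‖x‖) atTop atTop :=
          tendsto_natCast_atTop_atTop.atTop_mul_const (norm_pos_iff.2 h0')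
        refine h2.congr fun k => ?_
        rw [h1 k, norm_mul, Complex.norm_natCast]
      exact (Set.Subsingleton.anti subsingleton_singleton hsub).isClosed
  · exact (Pool.Agent.H712R2.isCompact_multibrot h).isClosed

theorem lc_iff_multi (n : ℕ) :
    LocallyConnectedSpace (multibrotSet n) ↔ ∀ c, LCAt (multibrotSet n) c :=
  lc_iff (closed n)

/-- the degrees `n` in which the Multibrot set is not locally connected at some `c` with
`c ^ (n - 1) = ζ` -/
def Ez (ζ : ℂ) : Set ℕ := {n | ∃ c : ℂ, c ^ (n - 1) = ζ ∧ ¬ LCAt (multibrotSet n) c}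

theorem Ez_sub (ζ : ℂ) : Ez ζ ⊆ badz ζ := by
  rintro n ⟨c, hc, h⟩
  obtain ⟨h1, h2, h3⟩ := E_sub c (show n ∈ Pool.Agent.R240.Alm.E c from h)
  exact ⟨h1, c, hc, h2, h3⟩

theorem density_mono {S T : Set ℕ} (h : S ⊆ T)
    (hT : Tendsto (fun N : ℕ => ((T ∩ Iio N).ncard : ℝ) / N) atTop (𝓝 0)) :
    Tendsto (fun N : ℕ => ((S ∩ Iio N).ncard : ℝ) / N) atTop (𝓝 0) := by
  refine squeeze_zero (fun N => by positivity) (fun N => ?_) hT
  have h1 : (T ∩ Iio N).Finite := (finite_Iio N).subset inter_subset_right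
  have h2 : (S ∩ Iio N).ncard ≤ (T ∩ Iio N).ncard :=
    Set.ncard_le_ncard (inter_subset_inter_left _ h) h1
  have h3 : ((S ∩ Iio N).ncard : ℝ) ≤ (T ∩ Iio N).ncard := by exact_mod_cast h2
  gcongr

theorem count_mono {S T : Set ℕ} (h : S ⊆ T) {s : ℝ}
    (hT : ∃ K : ℝ, ∀ N : ℕ, 2 ≤ N → ((T ∩ Iic N).ncard : ℝ) ≤ K * Real.log N ^ s) :
    ∃ K : ℝ, ∀ N : ℕ, 2 ≤ N → ((S ∩ Iic N).ncard : ℝ) ≤ K * Real.log N ^ s := by
  obtain ⟨K, hK⟩ := hT
  refine ⟨K, fun N hN => le_trans ?_ (hK N hN)⟩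
  have h1 : (T ∩ Iic N).Finite := (finite_Iic N).subset inter_subset_right
  exact_mod_cast Set.ncard_le_ncard (inter_subset_inter_left _ h) h1

theorem gaps_mono {S T : Set ℕ} (h : S ⊆ T) {Q : ℕ}
    (hT : {n | n ∈ T ∧ ∃ m ∈ T, n < m ∧ m ≤ n + Q}.Finite) :
    {n | n ∈ S ∧ ∃ m ∈ S, n < m ∧ m ≤ n + Q}.Finite :=
  hT.subset fun _ ⟨h1, m, h2, h3⟩ => ⟨h h1, m, h h2, h3⟩

/-- resonant degrees in the coordinate `ζ` -/
theorem root_fixed' {ζ : ℂ} {b : ℕ} (hb : 0 < b) (hβ : (1 + ζ) ^ b = 1) :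
    {n | ∃ c : ℂ, c ^ (n - 1) = ζ ∧ ¬ LCAt (multibrotSet n) c ∧
      (c ^ n + c) ^ n + c ≠ c ^ n + c}.Finite := by
  apply (finite_root hb hβ).subset
  rintro n ⟨c, hc, h, h2⟩
  have h3 := Ez_sub ζ ⟨c, hc, h⟩
  refine ⟨h3, fun h4 => h2 ?_⟩
  have hn := h3.1
  have h5 : c ^ n = c * ζ := by
    rw [← hc]
    conv_lhs => rw [show n = (n - 1) + 1 by omega]
    rw [pow_succ]; ring
  have h6 : c ^ n + c = c * (1 + ζ) := by rw [h5]; ring
  rw [h6, mul_pow, h4, h5]
  ring

theorem count_all {S : Set ℕ}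
    (h : ∀ m : ℕ, ∃ K : ℝ, ∀ N : ℕ, 2 ≤ N →
      ((S ∩ Iic N).ncard : ℝ) ≤ K * Real.log N ^ (2 + 1 / ((m : ℝ) + 1))) {s : ℝ} (hs : 2 < s) :
    ∃ K : ℝ, ∀ N : ℕ, 2 ≤ N → ((S ∩ Iic N).ncard : ℝ) ≤ K * Real.log N ^ s := by
  obtain ⟨m, hm⟩ := exists_nat_one_div_lt (sub_pos.2 hs)
  obtain ⟨K, hK⟩ := h m
  refine ⟨K * Real.log 2 ^ (2 + 1 / ((m : ℝ) + 1) - s), fun N hN => (hK N hN).trans ?_⟩
  have hl2 : 0 < Real.log 2 := Real.log_pos (by norm_num)
  have hlN : Real.log 2 ≤ Real.log N := Real.log_le_log (by norm_num) (by exact_mod_cast hN)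
  have hlp : 0 < Real.log N := hl2.trans_le hlN
  have hK0 : 0 ≤ K := by
    by_contra hcon
    rw [not_le] at hcon
    have h1 := hK N hN
    have h2 : 0 < Real.log N ^ (2 + 1 / ((m : ℝ) + 1)) := Real.rpow_pos_of_pos hlp _
    have h3 : (0:ℝ) ≤ ((S ∩ Iic N).ncard : ℝ) := by positivity
    have h4 : K * Real.log N ^ (2 + 1 / ((m : ℝ) + 1)) < 0 := mul_neg_of_neg_of_pos hcon h2
    linarith
  have h1 : Real.log N ^ (2 + 1 / ((m : ℝ) + 1)) =
      Real.log N ^ (2 + 1 / ((m : ℝ) + 1) - s) * Real.log N ^ s := by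
    rw [← Real.rpow_add hlp]
    congr 1
    ring
  have h2 : Real.log N ^ (2 + 1 / ((m : ℝ) + 1) - s) ≤
      Real.log 2 ^ (2 + 1 / ((m : ℝ) + 1) - s) :=
    Real.rpow_le_rpow_of_nonpos hl2 hlN (by linarith)
  rw [h1, mul_assoc]
  have h3 : 0 ≤ Real.log N ^ s := by positivity
  gcongr

end Pool.Agent.K1H32.MB
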