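import Pool.Agent.K1H32.MB.Cube
import Pool.Agent.H462R2.AE5

set_option autoImplicit false

/-! # The degrees in which local connectivity can fail at a fixed value of `c ^ (n - 1)` -/

open Complex Metric Set Filter Topology MeasureTheory
open N62a1eb23

namespace Pool.Agent.K1H32.MB

open Pool.Agent.H712R2 Pool.Agent.H713R2 Pool.Agent.H713R2.AR
open Pool.Agent.H749R2.Hyp (P1 P2 low1 low2' Att2 t_le_two z2_le not_mem_of_gt att_zero
  fixed_of_contr norm_cn)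
open Pool.Agent.H462R2.AD (hyp exists_lower near measurableSet_near volume_near summable_aux)
open Pool.Agent.R240.Alm (not_att)
open Pool.Agent.H462R2.AE (g g0 g1 escape tendsto_pow_big third g_iter1 g_iter2 g_iter3 norm_four
  real_unit att3 att_of_g P_eq pow_diff sq_near_one sq_near_neg_one ae_tsum' finite_count)

/-- The degrees with a parameter `c ^ (n - 1) = ζ` in the Multibrot set without attracting cycle. -/
def badz (ζ : ℂ) : Set ℕ :=
  {n | 2 ≤ n ∧ ∃ c : ℂ, c ^ (n - 1) = ζ ∧ c ∈ multibrotSet n ∧ c ∉ hyp n}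

theorem zero_badz : badz 0 = ∅ := by
  ext n
  simp only [mem_empty_iff_false, iff_false]
  rintro ⟨hn, c, hc, -, hcl⟩
  have hc0 : c = 0 := by
    have := pow_eq_zero_iff (n := n - 1) (a := c) (by omega)
    exact this.1 hc
  subst hc0
  exact not_att hcl (att_zero hn)

theorem finite_off {ζ : ℂ} (h : ‖1 + ζ‖ ≠ 1) : (badz ζ).Finite := by
  by_cases hζ : ζ = 0
  · subst hζ; rw [zero_badz]; exact finite_empty
  have hs : 0 < ‖ζ‖ := norm_pos_iff.2 hζ
  rcases lt_or_gt_of_ne h with h1 | h1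
  · set a := ‖1 + ζ‖ with ha
    have ha0 : 0 ≤ a := norm_nonneg _
    set q := (1 + a) / 2 with hq
    have hq0 : 0 < q := by rw [hq]; linarith
    have hq1 : q < 1 := by rw [hq]; linarith
    have hT : Tendsto (fun n : ℕ => ‖ζ‖ ^ 2 * ((n : ℝ) ^ 2 * q ^ (n - 1))) atTop (𝓝 0) := by
      have h2 := (tendsto_pow_const_mul_const_pow_of_lt_one 2 hq0.le hq1).const_mul q⁻¹
      rw [mul_zero] at h2
      have h3 : Tendsto (fun n : ℕ => (n : ℝ) ^ 2 * q ^ (n - 1)) atTop (𝓝 0) := by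
        refine h2.congr' ?_
        filter_upwards [eventually_ge_atTop 1] with n hn
        obtain ⟨m, rfl⟩ : ∃ m, n = m + 1 := ⟨n - 1, by omega⟩
        rw [Nat.add_sub_cancel, pow_succ q m]
        field_simp
      simpa using h3.const_mul (‖ζ‖ ^ 2)
    have hN : ∀ᶠ n : ℕ in atTop, 4 / (1 - a) + 1 ≤ (n : ℝ) :=
      tendsto_natCast_atTop_atTop.eventually_ge_atTop _
    obtain ⟨n₀, hn₀⟩ := eventually_atTop.1 ((hT.eventually_lt_const
      (u := 1 / 8) (by norm_num)).and hN)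
    apply (finite_Iio n₀).subset
    rintro n ⟨hn, c, hc, hM, hcl⟩
    by_contra hcon
    rw [mem_Iio, not_lt] at hcon
    obtain ⟨h2, h3⟩ := hn₀ n hcon
    have h4 := low2' hn (not_att hcl)
    rw [← norm_pow, hc] at h4
    have hn0 : (0:ℝ) < n := by exact_mod_cast (by omega : 0 < n)
    have h5 : a + 2 / n ≤ q := by
      have h1a : 0 < 1 - a := by linarith
      have h6 : 4 / (1 - a) ≤ n := by linarith
      rw [div_le_iff₀ h1a] at h6
      have h7 : 2 / (n:ℝ) ≤ (1 - a) / 2 := by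
        rw [div_le_div_iff₀ hn0 (by norm_num)]; linarith
      rw [hq]; linarith
    have h6 : (n * ‖ζ‖) ^ 2 * (a + 2 / n) ^ (n - 1) ≤ (n * ‖ζ‖) ^ 2 * q ^ (n - 1) := by
      gcongr
    have h7 : (n * ‖ζ‖) ^ 2 * q ^ (n - 1) = ‖ζ‖ ^ 2 * ((n : ℝ) ^ 2 * q ^ (n - 1)) := by ring
    linarith
  · obtain ⟨n₀, hn₀⟩ := eventually_atTop.1 (tendsto_pow_big h1 hs)
    apply (finite_Iio n₀).subset
    rintro n ⟨hn, c, hc, hM, hcl⟩
    by_contra hcon
    rw [mem_Iio, not_lt] at hcon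
    have h2 := z2_le hn hM
    rw [← norm_pow, hc] at h2
    have := hn₀ n hcon
    linarith

/-- The exceptional degrees are those for which `β ^ n` is close to one of two values. -/
theorem bad_small {ζ : ℂ} (h1 : ‖1 + ζ‖ = 1) (hζ : ζ ≠ 0) {ε : ℝ} (hε : 0 < ε) :
    ∃ n₀ : ℕ, ∀ n, n₀ ≤ n → n ∈ badz ζ →
      ((1 + ζ) ^ n ≠ 1 → (1 + ζ) ^ (n + 1) ≠ -1) ∧
      ‖(1 + ζ) ^ n - 1‖ * ‖(1 + ζ) ^ (n + 1) + 1‖ < ε := by
  have hs : 0 < ‖ζ‖ := norm_pos_iff.2 hζ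
  set δ : ℝ := min 1 (ε * ‖ζ‖ / 4) with hδ
  have hδ0 : 0 < δ := lt_min one_pos (by positivity)
  have hδ1 : δ ≤ 1 := min_le_left _ _
  have hδ2 : δ ≤ ε * ‖ζ‖ / 4 := min_le_right _ _
  obtain ⟨n₁, hn₁⟩ := att3 h1 hδ0
  obtain ⟨n₂, hn₂⟩ := eventually_atTop.1 (tendsto_pow_big (by linarith : 1 < 1 + δ) hs)
  have h4 : ∃ n₃ : ℕ, (1 + ζ).im ≠ 0 → ∀ n, n₃ ≤ n →
      2 < ‖ζ‖ * ‖1 + (1 + ζ) - (1 + ζ) ^ 2‖ ^ (n - 1) := by
    by_cases him : (1 + ζ).im = 0
    · exact ⟨0, fun h => absurd him h⟩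
    · have h5 : 1 < ‖1 + (1 + ζ) - (1 + ζ) ^ 2‖ := by
        have h6 := norm_four h1
        have h7 : 0 < (1 + ζ).im ^ 2 := by positivity
        by_contra hcon
        rw [not_lt] at hcon
        have := norm_nonneg (1 + (1 + ζ) - (1 + ζ) ^ 2)
        nlinarith
      obtain ⟨n₃, hn₃⟩ := eventually_atTop.1 (tendsto_pow_big h5 hs)
      exact ⟨n₃, fun _ => hn₃⟩
  obtain ⟨n₃, hn₃⟩ := h4
  obtain ⟨n₄, hn₄⟩ := exists_nat_ge (3 / ‖ζ‖)
  refine ⟨max (max n₁ n₂) (max n₃ n₄), fun n hn hbad => ?_⟩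
  obtain ⟨hn2, c, hc, hM, hcl⟩ := hbad
  have hc0 : c ≠ 0 := by
    rintro rfl
    rw [zero_pow (by omega)] at hc
    exact hζ hc.symm
  have hn3 : 3 ≤ n * ‖ζ‖ := by
    rw [← div_le_iff₀ hs]
    refine hn₄.trans ?_
    exact_mod_cast (le_max_right n₃ n₄).trans ((le_max_right _ _).trans hn)
  have hmone : (1 + ζ) ^ n ≠ 1 → (1 + ζ) ^ (n + 1) ≠ -1 := by
    intro hone h
    by_cases him : (1 + ζ).im = 0
    · have h5 := real_unit h1 him (by
        intro h6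
        apply hζ
        linear_combination h6)
      apply hone
      rw [pow_succ, h5] at h
      rw [h5]
      linear_combination -h
    · have hb0 : (1 + ζ) ≠ 0 := by
        intro h6
        rw [h6, norm_zero] at h1
        norm_num at h1
      have hy3 : (g n ζ)^[3] 0 = (1 + ζ)⁻¹ := by
        rw [g_iter3 hn2]
        apply eq_inv_of_mul_eq_one_left
        rw [pow_succ] at h
        linear_combination ζ * h
      have hy4 : (g n ζ)^[4] 0 = 1 + (1 + ζ) - (1 + ζ) ^ 2 := by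
        rw [Function.iterate_succ_apply', hy3]
        unfold g
        rw [inv_pow]
        have h6 : ((1 + ζ) ^ n)⁻¹ = - (1 + ζ) := by
          apply inv_eq_of_mul_eq_one_right
          rw [pow_succ] at h
          linear_combination -h
        rw [h6]; ring
      have h6 := hn₃ him n ((le_max_left n₃ n₄).trans ((le_max_right _ _).trans hn))
      refine escape hn2 hc (k := 4) ?_ ?_ hM
      · rw [hy4]
        have h6 := norm_four h1
        have h7 : 0 ≤ (1 + ζ).im ^ 2 := by positivity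
        by_contra hcon
        rw [not_le] at hcon
        have := norm_nonneg (1 + (1 + ζ) - (1 + ζ) ^ 2)
        nlinarith
      · rw [hy4]; exact h6
  refine ⟨hmone, ?_⟩
  set y := ‖1 + ζ * (1 + ζ) ^ n‖ with hy
  have hy0 : 0 ≤ y := norm_nonneg _
  have hlow : 1 - δ < y := by
    by_contra hcon
    rw [not_lt] at hcon
    obtain ⟨z, hz1, hz2⟩ := hn₁ n ((le_max_left n₁ n₂).trans ((le_max_left _ _).trans hn)) hcon
    exact hcl (att_of_g hn2 hc hc0 (by norm_num) hz1 hz2)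
  have hup : y < 1 + δ := by
    by_contra hcon
    rw [not_lt] at hcon
    have h5 := hn₂ n ((le_max_right n₁ n₂).trans ((le_max_left _ _).trans hn))
    refine escape hn2 hc (k := 3) ?_ ?_ hM
    · rw [g_iter3 hn2, ← hy]; linarith
    · rw [g_iter3 hn2, ← hy]
      calc 2 < ‖ζ‖ * (1 + δ) ^ (n - 1) := h5
        _ ≤ ‖ζ‖ * y ^ (n - 1) := by gcongr
  have h5 := third (β := 1 + ζ) (b := (1 + ζ) ^ n) h1 (by rw [norm_pow, h1, one_pow])
  rw [add_sub_cancel_left, ← hy, ← pow_succ'] at h5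
  have h6 : |y ^ 2 - 1| < 4 * δ := by
    rw [abs_lt]
    constructor <;> nlinarith
  rw [h5] at h6
  have h7 : ‖ζ‖ * (‖(1 + ζ) ^ n - 1‖ * ‖(1 + ζ) ^ (n + 1) + 1‖) < ‖ζ‖ * ε := by
    calc _ < 4 * δ := h6
      _ ≤ 4 * (ε * ‖ζ‖ / 4) := by gcongr
      _ = _ := by ring
  exact lt_of_mul_lt_mul_left h7 hs.le

theorem bad_pos {ζ : ℂ} {n : ℕ} (h1 : (1 + ζ) ^ n ≠ 1) (h2 : (1 + ζ) ^ (n + 1) ≠ -1) :
    0 < ‖(1 + ζ) ^ n - 1‖ * ‖(1 + ζ) ^ (n + 1) + 1‖ := by
  apply mul_pos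
  · exact norm_pos_iff.2 (sub_ne_zero.2 h1)
  · rw [norm_pos_iff]
    intro h
    exact h2 (eq_neg_of_add_eq_zero_left h)

theorem finite_root {ζ : ℂ} {b : ℕ} (hb : 0 < b) (hβ : (1 + ζ) ^ b = 1) :
    {n | n ∈ badz ζ ∧ (1 + ζ) ^ n ≠ 1}.Finite := by
  by_cases hζ : ζ = 0
  · subst hζ; rw [zero_badz]; exact Set.finite_empty.subset fun n hn => hn.1
  have h1 : ‖1 + ζ‖ = 1 := by
    have h2 : ‖1 + ζ‖ ^ b = 1 := by rw [← norm_pow, hβ, norm_one]
    exact (pow_eq_one_iff_of_nonneg (norm_nonneg _) (by omega)).mp h2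
  set f : ℕ → ℝ := fun n => ‖(1 + ζ) ^ n - 1‖ * ‖(1 + ζ) ^ (n + 1) + 1‖ with hf
  obtain ⟨δ, hδ, hδ2⟩ := exists_lower ((Finset.range b).filter (fun i => 0 < f i)) f
    (fun i hi => (Finset.mem_filter.1 hi).2)
  obtain ⟨n₀, hn₀⟩ := bad_small h1 hζ hδ
  apply (Set.finite_Iio n₀).subset
  rintro n ⟨hn, h2⟩
  by_contra hcon
  rw [mem_Iio, not_lt] at hcon
  obtain ⟨h3', h4⟩ := hn₀ n hcon hn
  have h3 := h3' h2
  have hmod : ∀ k, (1 + ζ) ^ (n + k) = (1 + ζ) ^ (n % b + k) := by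
    intro k
    conv_lhs => rw [← Nat.div_add_mod n b, add_assoc, pow_add, pow_mul, hβ, one_pow, one_mul]
  have hfm : f (n % b) = f n := by
    simp only [hf]
    have h5 := hmod 0
    rw [add_zero, add_zero] at h5
    rw [hmod 1, h5]
  have h5 := hδ2 (n % b) (Finset.mem_filter.2 ⟨Finset.mem_range.2 (Nat.mod_lt _ hb), by
    rw [hfm]; exact bad_pos h2 h3⟩)
  rw [hfm] at h5
  exact absurd h4 (not_lt.2 h5)

/-- The gaps between the exceptional degrees tend to infinity. -/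
theorem gaps {ζ : ℂ} (hroot : ∀ k : ℕ, 0 < k → (1 + ζ) ^ k ≠ 1) (Q : ℕ) :
    {n | n ∈ badz ζ ∧ ∃ m ∈ badz ζ, n < m ∧ m ≤ n + Q}.Finite := by
  by_cases h1 : ‖1 + ζ‖ ≠ 1
  · exact (finite_off h1).subset fun n hn => hn.1
  push Not at h1
  have hζ : ζ ≠ 0 := by
    rintro rfl
    exact hroot 1 one_pos (by simp)
  obtain ⟨δ', hδ', hδ2'⟩ := exists_lower (Finset.Icc 1 (Q + 1))
    (fun q => ‖(1 + ζ) ^ (2 * q) - 1‖) (by
    intro q hq
    rw [Finset.mem_Icc] at hq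
    exact norm_pos_iff.mpr (sub_ne_zero.mpr (hroot (2 * q) (by omega))))
  set δ := min δ' 1 with hδdef
  have hδ : 0 < δ := lt_min hδ' one_pos
  have hδ1 : δ ≤ 1 := min_le_right _ _
  have hδ2 : ∀ q, 1 ≤ q → q ≤ Q + 1 → δ ≤ ‖(1 + ζ) ^ (2 * q) - 1‖ := fun q hq1 hq2 =>
    (min_le_left _ _).trans (hδ2' q (Finset.mem_Icc.2 ⟨hq1, hq2⟩))
  obtain ⟨n₀, hn₀⟩ := bad_small h1 hζ (ε := (δ / 4) * (δ / 4)) (by positivity)
  have hsplit : ∀ n, n₀ ≤ n → n ∈ badz ζ →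
      ‖(1 + ζ) ^ n - 1‖ < δ / 4 ∨ ‖(1 + ζ) ^ (n + 1) + 1‖ < δ / 4 := by
    intro n hn hb
    by_contra hcon
    push Not at hcon
    have h2 := (hn₀ n hn hb).2
    have h3 : δ / 4 * (δ / 4) ≤ ‖(1 + ζ) ^ n - 1‖ * ‖(1 + ζ) ^ (n + 1) + 1‖ :=
      mul_le_mul hcon.1 hcon.2 (by positivity) (norm_nonneg _)
    linarith
  apply (Set.finite_Iio n₀).subset
  rintro n ⟨hn, m, hm, hnm, hmQ⟩
  by_contra hcon
  rw [mem_Iio, not_lt] at hcon
  rcases hsplit n hcon hn with ha | ha <;> rcases hsplit m (by omega) hm with hb | hb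
  · have h3 := pow_diff h1 (by omega : 2 * n ≤ 2 * m) (sq_near_one h1 ha) (sq_near_one h1 hb)
    have h4 := hδ2 (m - n) (by omega) (by omega)
    rw [← Nat.mul_sub] at h3
    linarith
  · have h3 := pow_diff h1 (by omega : 2 * n ≤ 2 * (m + 1)) (sq_near_one h1 ha)
      (sq_near_neg_one h1 hb)
    have h4 := hδ2 (m + 1 - n) (by omega) (by omega)
    rw [← Nat.mul_sub] at h3
    linarith
  · rcases Nat.lt_or_ge (n + 1) m with h5 | h5
    · have h3 := pow_diff h1 (by omega : 2 * (n + 1) ≤ 2 * m) (sq_near_neg_one h1 ha)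
        (sq_near_one h1 hb)
      have h4 := hδ2 (m - (n + 1)) (by omega) (by omega)
      rw [← Nat.mul_sub] at h3
      linarith
    · have hmn : m = n + 1 := by omega
      subst hmn
      have h6 := norm_sub_le ((1 + ζ) ^ (n + 1) + 1) ((1 + ζ) ^ (n + 1) - 1)
      have h7 : ((1 + ζ) ^ (n + 1) + 1) - ((1 + ζ) ^ (n + 1) - 1) = 2 := by ring
      rw [h7] at h6
      have h8 : ‖(2:ℂ)‖ = 2 := by simp
      linarith
  · have h3 := pow_diff h1 (by omega : 2 * (n + 1) ≤ 2 * (m + 1)) (sq_near_neg_one h1 ha)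
      (sq_near_neg_one h1 hb)
    have h4 := hδ2 (m + 1 - (n + 1)) (by omega) (by omega)
    rw [← Nat.mul_sub] at h3
    linarith

/-- Sets of degrees whose gaps tend to infinity have density zero. -/
theorem density_of_gaps {S : Set ℕ}
    (hS : ∀ Q : ℕ, {n | n ∈ S ∧ ∃ m ∈ S, n < m ∧ m ≤ n + Q}.Finite) :
    Tendsto (fun N : ℕ => ((S ∩ Iio N).ncard : ℝ) / N) atTop (𝓝 0) := by
  have key : ∀ Q : ℕ, ∃ n₀ : ℕ, ∀ N : ℕ, (S ∩ Iio N).ncard ≤ n₀ + (N / (Q + 1) + 1) := by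
    intro Q
    obtain ⟨n₀, hn₀⟩ := (hS Q).bddAbove
    refine ⟨n₀ + 1, fun N => ?_⟩
    have hsub : S ∩ Iio N ⊆ Iio (n₀ + 1) ∪ (S ∩ Ico (n₀ + 1) N) := by
      rintro n ⟨hn1, hn2⟩
      rcases lt_or_ge n (n₀ + 1) with h | h
      · exact Or.inl h
      · exact Or.inr ⟨hn1, h, hn2⟩
    have hfin : (S ∩ Ico (n₀ + 1) N).Finite := (finite_Ico _ _).subset inter_subset_right
    have h1 : (S ∩ Iio N).ncard ≤ (Iio (n₀ + 1)).ncard + (S ∩ Ico (n₀ + 1) N).ncard :=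
      (Set.ncard_le_ncard hsub ((finite_Iio _).union hfin)).trans (Set.ncard_union_le _ _)
    have h2 : (Iio (n₀ + 1) : Set ℕ).ncard = n₀ + 1 := by
      rw [← Finset.coe_Iio, Set.ncard_coe_finset, Nat.card_Iio]
    have h3 : (S ∩ Ico (n₀ + 1) N).ncard ≤ N / (Q + 1) + 1 := by
      have h4 : (Iio (N / (Q + 1) + 1) : Set ℕ).ncard = N / (Q + 1) + 1 := by
        rw [← Finset.coe_Iio, Set.ncard_coe_finset, Nat.card_Iio]
      rw [← h4]
      apply Set.ncard_le_ncard_of_injOn (fun n => n / (Q + 1))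
      · rintro n ⟨-, -, hn⟩
        rw [mem_Iio, Nat.lt_succ_iff]
        exact Nat.div_le_div_right (le_of_lt hn)
      · have hlt : ∀ n ∈ S ∩ Ico (n₀ + 1) N, ∀ m ∈ S ∩ Ico (n₀ + 1) N, n < m →
            n / (Q + 1) < m / (Q + 1) := by
          rintro n ⟨hn1, hn2, -⟩ m ⟨hm1, -, -⟩ hnm
          have h5 : n + (Q + 1) ≤ m := by
            by_contra hcon
            push Not at hcon
            have := hn₀ (show n ∈ {n | n ∈ S ∧ ∃ m ∈ S, n < m ∧ m ≤ n + Q} from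
              ⟨hn1, m, hm1, hnm, by omega⟩)
            omega
          calc n / (Q + 1) < n / (Q + 1) + 1 := Nat.lt_succ_self _
            _ = (n + (Q + 1)) / (Q + 1) := (Nat.add_div_right n (Nat.succ_pos Q)).symm
            _ ≤ m / (Q + 1) := Nat.div_le_div_right h5
        intro n hn m hm hnm
        simp only at hnm
        rcases lt_trichotomy n m with h | h | h
        · exact absurd hnm (hlt n hn m hm h).ne
        · exact h
        · exact absurd hnm (hlt m hm n hn h).ne'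
    omega
  rw [Metric.tendsto_atTop]
  intro ε hε
  obtain ⟨Q, hQ⟩ := exists_nat_one_div_lt (half_pos hε)
  obtain ⟨n₀, hn₀⟩ := key Q
  obtain ⟨N₀, hN₀⟩ := exists_nat_gt ((n₀ + 1 : ℝ) / (ε / 2))
  refine ⟨N₀ + 1, fun N hN => ?_⟩
  have hN0 : (0:ℝ) < N := by exact_mod_cast (by omega : 0 < N)
  rw [Real.dist_eq, sub_zero, abs_of_nonneg (by positivity), div_lt_iff₀ hN0]
  have h1 : ((S ∩ Iio N).ncard : ℝ) ≤ n₀ + ((N / (Q + 1) : ℕ) + 1) := by
    exact_mod_cast hn₀ N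
  have h2 : ((N / (Q + 1) : ℕ) : ℝ) ≤ N * (1 / ((Q:ℝ) + 1)) := by
    have := Nat.cast_div_le (α := ℝ) (m := N) (n := Q + 1)
    push_cast at this
    rw [mul_one_div]
    exact this
  have h3 : (N:ℝ) * (1 / ((Q:ℝ) + 1)) ≤ N * (ε / 2) := by gcongr
  have h4 : (N₀:ℝ) < N := by exact_mod_cast (by omega : N₀ < N)
  have h5 : (n₀ + 1 : ℝ) < N * (ε / 2) := by
    rw [div_lt_iff₀ (half_pos hε)] at hN₀
    exact hN₀.trans (by gcongr)
  linarith

theorem density {ζ : ℂ} (hroot : ∀ k : ℕ, 0 < k → (1 + ζ) ^ k ≠ 1) :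
    Tendsto (fun N : ℕ => ((badz ζ ∩ Iio N).ncard : ℝ) / N) atTop (𝓝 0) :=
  density_of_gaps (gaps hroot)

/-- Almost every point of the circle is not a root of unity. -/
theorem ae_not_root : ∀ᵐ θ : ℝ, ∀ k : ℕ, 0 < k → exp (θ * I) ^ k ≠ 1 := by
  have hc : (Set.range (fun p : ℤ × ℕ => (p.1 : ℝ) * (2 * Real.pi) / p.2)).Countable :=
    Set.countable_range _
  filter_upwards [hc.ae_notMem volume] with θ hθ k hk h
  apply hθ
  rw [← Complex.exp_nat_mul, Complex.exp_eq_one_iff] at h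
  obtain ⟨m, hm⟩ := h
  refine ⟨(m, k), ?_⟩
  have hk' : (k:ℝ) ≠ 0 := by exact_mod_cast hk.ne'
  have h2 : ((k:ℂ) * θ) * I = ((m:ℂ) * (2 * Real.pi)) * I := by
    linear_combination hm
  have h3 : (k:ℂ) * θ = (m:ℂ) * (2 * Real.pi) := mul_right_cancel₀ I_ne_zero h2
  have h4 : (k:ℝ) * θ = m * (2 * Real.pi) := by exact_mod_cast h3
  simp only
  rw [div_eq_iff hk', ← h4, mul_comm]

/-- The rate of approach of the exceptional degrees to the resonances. -/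
theorem rate {ζ : ℂ} (h1 : ‖1 + ζ‖ = 1) {n : ℕ} (hn : 10 ^ 6 ≤ n) (hζn : 1 ≤ n * ‖ζ‖)
    (hbad : n ∈ badz ζ) :
    ‖ζ‖ * (‖(1 + ζ) ^ n - 1‖ * ‖(1 + ζ) ^ (n + 1) + 1‖) ≤ 28 * Real.log n / n := by
  obtain ⟨hn2, c, hc, hM, hcl⟩ := hbad
  have hn' : (10 ^ 6 : ℝ) ≤ n := by exact_mod_cast hn
  have hn0 : (0:ℝ) < n := by linarith
  have hz0 : 0 < ‖ζ‖ := by
    rcases (norm_nonneg ζ).lt_or_eq with h | h
    · exact h
    · rw [← h, mul_zero] at hζn; norm_num at hζn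
  have hz2 : ‖ζ‖ ≤ 2 := by
    have h2 := norm_sub_le (1 + ζ) 1
    rw [add_sub_cancel_left, h1, norm_one] at h2
    linarith
  set y := ‖1 + ζ * (1 + ζ) ^ n‖ with hy
  have hPn : ‖P n 3 c‖ ^ (n - 1) = ‖ζ‖ * y ^ (n - 1) := by
    rw [P_eq hn2 hc, g_iter3 hn2, norm_mul, mul_pow, ← norm_pow c, hc]
  have hup : ‖ζ‖ * y ^ (n - 1) ≤ 2 := by
    rw [← hPn]; exact Pool.Agent.H462R2.CD.pow_le_two hn2 hM 3
  have hlow : 1 / (n:ℝ) ^ 5 ≤ ‖ζ‖ * y ^ (n - 1) := by
    rw [← hPn]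
    by_contra hcon
    rw [not_le] at hcon
    obtain ⟨z, hz⟩ := Pool.Agent.H462R2.CD.criterion_pow (k := 2) (n := n)
      (le_trans (by norm_num) hn) hM hcon
    exact hcl ⟨_, z, hz⟩
  have hy0 : 0 < y := by
    rcases (norm_nonneg (1 + ζ * (1 + ζ) ^ n)).lt_or_eq with h | h
    · exact h
    · exfalso
      rw [hy, ← h, zero_pow (by omega), mul_zero] at hlow
      have : 0 < 1 / (n:ℝ) ^ 5 := by positivity
      linarith
  have hp : 0 < y ^ (n - 1) := by positivity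
  have hcast : ((n - 1 : ℕ) : ℝ) = n - 1 := by
    rw [Nat.cast_sub (by omega)]; simp
  have hl2 : 0.6931471803 < Real.log 2 := Real.log_two_gt_d9
  have hln : Real.log 2 ≤ Real.log n := Real.log_le_log (by norm_num) (by linarith)
  have e1 : Real.log ‖ζ‖ + (n - 1) * Real.log y ≤ Real.log 2 := by
    have := Real.log_le_log (by positivity) hup
    rwa [Real.log_mul hz0.ne' hp.ne', Real.log_pow, hcast] at this
  have e2 : -(5 * Real.log n) ≤ Real.log ‖ζ‖ + (n - 1) * Real.log y := by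
    have := Real.log_le_log (by positivity) hlow
    rw [Real.log_mul hz0.ne' hp.ne', Real.log_pow, hcast, one_div, Real.log_inv,
      Real.log_pow] at this
    push_cast at this
    linarith
  have e3 : Real.log ‖ζ‖ ≤ Real.log 2 := Real.log_le_log hz0 hz2
  have e4 : -Real.log n ≤ Real.log ‖ζ‖ := by
    have h2 : 0 ≤ Real.log (n * ‖ζ‖) := Real.log_nonneg hζn
    rw [Real.log_mul hn0.ne' hz0.ne'] at h2
    linarith
  set L := Real.log y with hL
  have hkey : ((n:ℝ) - 1) * |L| ≤ 6 * Real.log n := by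
    rcases abs_cases L with ⟨h6, -⟩ | ⟨h6, -⟩
    · rw [h6]; linarith
    · rw [h6]; linarith
  have hkey2 : |2 * L| ≤ 14 * Real.log n / n := by
    rw [abs_mul, abs_two, le_div_iff₀ hn0]
    nlinarith [abs_nonneg L]
  have hlog := Pool.Agent.H462R2.CD.log_le (n := n) (by omega)
  have hle1 : 14 * Real.log n / n ≤ 1 := by
    rw [div_le_one hn0]
    nlinarith
  have h7 := Real.abs_exp_sub_one_le (hkey2.trans hle1)
  have h8 : Real.exp (2 * L) = y ^ 2 := by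
    rw [hL, mul_comm, Real.exp_mul, Real.exp_log hy0]
    norm_num
  rw [h8] at h7
  have h5 := third (β := 1 + ζ) (b := (1 + ζ) ^ n) h1 (by rw [norm_pow, h1, one_pow])
  rw [add_sub_cancel_left, ← hy, ← pow_succ'] at h5
  rw [← h5]
  calc |y ^ 2 - 1| ≤ 2 * |2 * L| := h7
    _ ≤ 2 * (14 * Real.log n / n) := by gcongr
    _ = _ := by ring

/-- The large exceptional degrees are near one of the two resonances. -/
theorem near_of_bad {θ : ℝ} (hβ1 : exp (θ * I) ≠ -1) {A : ℝ}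
    (hz : exp (θ * I) - 1 ≠ 0)
    (hA : 112 / (‖exp (θ * I) - 1‖ * ‖exp (θ * I) + 1‖) ≤ A) {n : ℕ} (hn : 10 ^ 6 ≤ n)
    (hζn : 1 ≤ n * ‖exp (θ * I) - 1‖) (hbad : n ∈ badz (exp (θ * I) - 1)) :
    θ ∈ near n (A * Real.log n / n) ∨ θ ∈ near (2 * (n + 1)) (A * Real.log n / n) := by
  set β := exp (θ * I) with hβ
  have hβn : ‖β‖ = 1 := Complex.norm_exp_ofReal_mul_I θ
  have h1 : ‖1 + (β - 1)‖ = 1 := by rw [add_sub_cancel]; exact hβn
  have hr := rate h1 hn hζn hbad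
  rw [add_sub_cancel] at hr
  have hz0 : 0 < ‖β - 1‖ := norm_pos_iff.2 hz
  have he0 : 0 < ‖β + 1‖ := by
    rw [norm_pos_iff]
    intro h
    exact hβ1 (eq_neg_of_add_eq_zero_left h)
  have hn0 : (0:ℝ) < n := by
    have : (10 ^ 6 : ℝ) ≤ n := by exact_mod_cast hn
    linarith
  have hl : 0 ≤ Real.log n := Real.log_natCast_nonneg n
  rw [div_le_iff₀ (by positivity)] at hA
  have htri : ‖β + 1‖ ≤ ‖β ^ (n + 1) + 1‖ + ‖β ^ n - 1‖ := by
    have h2 : β + 1 = (β ^ (n + 1) + 1) - β * (β ^ n - 1) := by rw [pow_succ]; ring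
    calc ‖β + 1‖ = ‖(β ^ (n + 1) + 1) - β * (β ^ n - 1)‖ := by rw [← h2]
      _ ≤ ‖β ^ (n + 1) + 1‖ + ‖β * (β ^ n - 1)‖ := norm_sub_le _ _
      _ = _ := by rw [norm_mul, hβn, one_mul]
  have hlogn : 0 ≤ Real.log n / n := by positivity
  have hA' : 28 * Real.log n / n ≤ A / 4 * (Real.log n / n) * (‖β - 1‖ * ‖β + 1‖) := by
    have : 28 ≤ A / 4 * (‖β - 1‖ * ‖β + 1‖) := by linarith
    calc 28 * Real.log n / n = 28 * (Real.log n / n) := by ring
      _ ≤ (A / 4 * (‖β - 1‖ * ‖β + 1‖)) * (Real.log n / n) := by gcongr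
      _ = _ := by ring
  have hprod : ‖β ^ n - 1‖ * ‖β ^ (n + 1) + 1‖ ≤ A / 4 * (Real.log n / n) * ‖β + 1‖ := by
    have h3 : ‖β - 1‖ * (‖β ^ n - 1‖ * ‖β ^ (n + 1) + 1‖) ≤
        ‖β - 1‖ * (A / 4 * (Real.log n / n) * ‖β + 1‖) := by
      calc _ ≤ 28 * Real.log n / n := hr
        _ ≤ _ := hA'
        _ = _ := by ring
    exact le_of_mul_le_mul_left h3 hz0
  have hA0 : 0 ≤ A := by
    by_contra hcon
    rw [not_le] at hcon
    have : A * (‖β - 1‖ * ‖β + 1‖) < 0 := mul_neg_of_neg_of_pos hcon (by positivity)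
    linarith
  have hA2 : 0 ≤ A / 2 * (Real.log n / n) := by positivity
  rcases le_or_gt ‖β ^ n - 1‖ (‖β + 1‖ / 2) with h3 | h3
  · left
    show ‖β ^ n - 1‖ ≤ _
    have h4 : ‖β + 1‖ / 2 ≤ ‖β ^ (n + 1) + 1‖ := by linarith
    have h5 : ‖β ^ n - 1‖ * (‖β + 1‖ / 2) ≤ (A / 2 * (Real.log n / n)) * (‖β + 1‖ / 2) := by
      calc ‖β ^ n - 1‖ * (‖β + 1‖ / 2) ≤ ‖β ^ n - 1‖ * ‖β ^ (n + 1) + 1‖ := by gcongr
        _ ≤ A / 4 * (Real.log n / n) * ‖β + 1‖ := hprod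
        _ = _ := by ring
    have h6 := le_of_mul_le_mul_right h5 (by positivity)
    calc ‖β ^ n - 1‖ ≤ A / 2 * (Real.log n / n) := h6
      _ ≤ A * (Real.log n / n) := by
          gcongr
          linarith
      _ = _ := by ring
  · right
    show ‖β ^ (2 * (n + 1)) - 1‖ ≤ _
    have h5 : ‖β ^ (n + 1) + 1‖ * (‖β + 1‖ / 2) ≤ (A / 2 * (Real.log n / n)) * (‖β + 1‖ / 2) := by
      calc ‖β ^ (n + 1) + 1‖ * (‖β + 1‖ / 2) ≤ ‖β ^ (n + 1) + 1‖ * ‖β ^ n - 1‖ := by gcongr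
        _ = ‖β ^ n - 1‖ * ‖β ^ (n + 1) + 1‖ := mul_comm _ _
        _ ≤ A / 4 * (Real.log n / n) * ‖β + 1‖ := hprod
        _ = _ := by ring
    have h6 := le_of_mul_le_mul_right h5 (by positivity)
    have h7 : β ^ (2 * (n + 1)) - 1 = (β ^ (n + 1) + 1) * (β ^ (n + 1) - 1) := by
      rw [mul_comm 2 (n + 1), pow_mul]; ring
    have h8 := norm_sub_le (β ^ (n + 1)) 1
    rw [norm_pow, hβn, one_pow, norm_one] at h8
    rw [h7, norm_mul]
    calc ‖β ^ (n + 1) + 1‖ * ‖β ^ (n + 1) - 1‖ ≤ (A / 2 * (Real.log n / n)) * 2 :=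
          mul_le_mul h6 (by linarith) (norm_nonneg _) hA2
      _ = _ := by ring

/-- At almost every `ζ` of the critical circle there are few exceptional degrees. -/
theorem ae_count {s : ℝ} (hs : 2 < s) :
    ∀ᵐ θ : ℝ, ∃ K : ℝ, ∀ N : ℕ, 2 ≤ N →
      ((badz (exp (θ * I) - 1) ∩ Iic N).ncard : ℝ) ≤ K * Real.log N ^ s := by
  have hall1 : ∀ A : ℕ, ∀ᵐ θ : ℝ, ∑' n : ℕ,
      (near (n + 2) ((A : ℝ) * Real.log (n + 2 : ℕ) / (n + 2 : ℕ))).indicator
      (fun _ => ENNReal.ofReal ((1 + Real.log (n + 2 : ℕ)) ^ (-s))) θ < ⊤ := fun A =>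
    ae_tsum' hs (Nat.cast_nonneg A) (fun n => n + 2) (fun n => by omega)
  have hall2 : ∀ A : ℕ, ∀ᵐ θ : ℝ, ∑' n : ℕ,
      (near (2 * (n + 2 + 1)) ((A : ℝ) * Real.log (n + 2 : ℕ) / (n + 2 : ℕ))).indicator
      (fun _ => ENNReal.ofReal ((1 + Real.log (n + 2 : ℕ)) ^ (-s))) θ < ⊤ := fun A =>
    ae_tsum' hs (Nat.cast_nonneg A) (fun n => 2 * (n + 2 + 1)) (fun n => by omega)
  filter_upwards [ae_all_iff.mpr hall1, ae_all_iff.mpr hall2, ae_not_root] with θ hθ1 hθ2 hfin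
  set β := exp (θ * I) with hβ
  have hβ1 : β - 1 ≠ 0 := by
    intro h
    exact hfin 1 one_pos (by rw [pow_one]; exact sub_eq_zero.1 h)
  have hβ2 : β ≠ -1 := by
    intro h
    exact hfin 2 two_pos (by rw [h]; norm_num)
  have hz0 : 0 < ‖β - 1‖ := norm_pos_iff.2 hβ1
  obtain ⟨A, hA⟩ := exists_nat_ge (112 / (‖β - 1‖ * ‖β + 1‖))
  obtain ⟨n₂, hn₂⟩ := exists_nat_ge (1 / ‖β - 1‖)
  set n₁ := max (10 ^ 6) n₂ with hn₁
  have hnear : ∀ n, n₁ ≤ n → n ∈ badz (β - 1) →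
      θ ∈ near n (A * Real.log n / n) ∨ θ ∈ near (2 * (n + 1)) (A * Real.log n / n) := by
    intro n hn hb
    apply near_of_bad hβ2 hβ1 hA ((le_max_left _ _).trans hn) _ hb
    rw [div_le_iff₀ hz0] at hn₂
    have : (n₂:ℝ) ≤ n := by exact_mod_cast (le_max_right _ _).trans hn
    calc 1 ≤ n₂ * ‖β - 1‖ := hn₂
      _ ≤ n * ‖β - 1‖ := by gcongr
  set F1 := ∑' n : ℕ, (near (n + 2) ((A : ℝ) * Real.log (n + 2 : ℕ) / (n + 2 : ℕ))).indicator
      (fun _ => ENNReal.ofReal ((1 + Real.log (n + 2 : ℕ)) ^ (-s))) θ with hF1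
  set F2 := ∑' n : ℕ, (near (2 * (n + 2 + 1))
      ((A : ℝ) * Real.log (n + 2 : ℕ) / (n + 2 : ℕ))).indicator
      (fun _ => ENNReal.ofReal ((1 + Real.log (n + 2 : ℕ)) ^ (-s))) θ with hF2
  set F := F1 + F2 with hF
  have hFtop : F ≠ ⊤ := ENNReal.add_ne_top.2 ⟨(hθ1 A).ne, (hθ2 A).ne⟩
  refine ⟨n₁ / Real.log 2 ^ s + F.toReal * 3 ^ s, fun N hN => ?_⟩
  have hfinN : (badz (β - 1) ∩ Icc n₁ N).Finite := (finite_Icc n₁ N).subset inter_subset_right
  set T := hfinN.toFinset.image (fun n => n - 2) with hT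
  have hmemT : ∀ n ∈ T, n + 2 ∈ badz (β - 1) ∧ n₁ ≤ n + 2 ∧ n + 2 ≤ N := by
    intro n hn
    rw [hT, Finset.mem_image] at hn
    obtain ⟨m, hm, rfl⟩ := hn
    rw [Set.Finite.mem_toFinset] at hm
    have h2 := hm.1.1
    rw [Nat.sub_add_cancel h2]
    exact ⟨hm.1, hm.2.1, hm.2.2⟩
  have hcard : (badz (β - 1) ∩ Icc n₁ N).ncard = T.card := by
    rw [Set.ncard_eq_toFinset_card _ hfinN, hT, Finset.card_image_of_injOn]
    intro a ha b hb hab
    simp only [Set.Finite.coe_toFinset] at ha hb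
    have h1 := ha.1.1
    have h2 := hb.1.1
    simp only at hab
    omega
  have hcard2 : (badz (β - 1) ∩ Iic N).ncard ≤ n₁ + T.card := by
    rw [← hcard]
    have hsub : badz (β - 1) ∩ Iic N ⊆ Iio n₁ ∪ (badz (β - 1) ∩ Icc n₁ N) := by
      rintro n ⟨hn1, hn2⟩
      rcases lt_or_ge n n₁ with h | h
      · exact Or.inl h
      · exact Or.inr ⟨hn1, h, hn2⟩
    have h1 := (Set.ncard_le_ncard hsub ((finite_Iio _).union hfinN)).trans
      (Set.ncard_union_le _ _)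
    have h2 : (Iio n₁ : Set ℕ).ncard = n₁ := by
      rw [← Finset.coe_Iio, Set.ncard_coe_finset, Nat.card_Iio]
    rw [h2] at h1
    exact h1
  have hl2 := Real.log_two_gt_d9
  have hlN : Real.log 2 ≤ Real.log N := Real.log_le_log (by norm_num) (by exact_mod_cast hN)
  have hpos : 0 < 1 + Real.log N := by linarith
  have h1 : ENNReal.ofReal (T.card * (1 + Real.log N) ^ (-s)) ≤ F := by
    calc ENNReal.ofReal (T.card * (1 + Real.log N) ^ (-s))
        = ∑ n ∈ T, ENNReal.ofReal ((1 + Real.log N) ^ (-s)) := by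
          rw [Finset.sum_const, nsmul_eq_mul, ← ENNReal.ofReal_natCast,
            ← ENNReal.ofReal_mul (by positivity)]
      _ ≤ ∑ n ∈ T, ((near (n + 2) ((A : ℝ) * Real.log (n + 2 : ℕ) / (n + 2 : ℕ))).indicator
            (fun _ => ENNReal.ofReal ((1 + Real.log (n + 2 : ℕ)) ^ (-s))) θ +
            (near (2 * (n + 2 + 1)) ((A : ℝ) * Real.log (n + 2 : ℕ) / (n + 2 : ℕ))).indicator
            (fun _ => ENNReal.ofReal ((1 + Real.log (n + 2 : ℕ)) ^ (-s))) θ) := by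
          apply Finset.sum_le_sum
          intro n hn
          obtain ⟨h2, h3, h3'⟩ := hmemT n hn
          have hle : ENNReal.ofReal ((1 + Real.log N) ^ (-s)) ≤
              ENNReal.ofReal ((1 + Real.log (n + 2 : ℕ)) ^ (-s)) := by
            apply ENNReal.ofReal_le_ofReal
            apply Real.rpow_le_rpow_of_nonpos _ _ (by linarith)
            · have := Real.log_natCast_nonneg (n + 2)
              linarith
            · have h5 : Real.log (n + 2 : ℕ) ≤ Real.log N :=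
                Real.log_le_log (by positivity) (by exact_mod_cast h3')
              linarith
          rcases hnear (n + 2) h3 h2 with h4 | h4
          · rw [Set.indicator_of_mem h4]
            exact hle.trans le_self_add
          · refine hle.trans (le_trans ?_ le_add_self)
            rw [Set.indicator_of_mem h4]
      _ = ∑ n ∈ T, (near (n + 2) ((A : ℝ) * Real.log (n + 2 : ℕ) / (n + 2 : ℕ))).indicator
            (fun _ => ENNReal.ofReal ((1 + Real.log (n + 2 : ℕ)) ^ (-s))) θ +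
          ∑ n ∈ T, (near (2 * (n + 2 + 1))
            ((A : ℝ) * Real.log (n + 2 : ℕ) / (n + 2 : ℕ))).indicator
            (fun _ => ENNReal.ofReal ((1 + Real.log (n + 2 : ℕ)) ^ (-s))) θ :=
          Finset.sum_add_distrib
      _ ≤ F := add_le_add (ENNReal.sum_le_tsum _) (ENNReal.sum_le_tsum _)
  have h2 : (T.card : ℝ) * (1 + Real.log N) ^ (-s) ≤ F.toReal := by
    rw [← ENNReal.ofReal_le_iff_le_toReal hFtop]
    exact h1
  have h3 : (T.card : ℝ) ≤ F.toReal * (1 + Real.log N) ^ s := by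
    have h4 : (1 + Real.log N) ^ (-s) * (1 + Real.log N) ^ s = 1 := by
      rw [← Real.rpow_add hpos]; simp
    calc (T.card : ℝ) = (T.card : ℝ) * (1 + Real.log N) ^ (-s) * (1 + Real.log N) ^ s := by
          rw [mul_assoc, h4, mul_one]
      _ ≤ F.toReal * (1 + Real.log N) ^ s := by gcongr
  have h5 : (1 + Real.log N) ^ s ≤ 3 ^ s * Real.log N ^ s := by
    rw [← Real.mul_rpow (by norm_num) (by linarith)]
    apply Real.rpow_le_rpow hpos.le _ (by linarith)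
    linarith
  have h6 : Real.log 2 ^ s ≤ Real.log N ^ s := by
    apply Real.rpow_le_rpow (by linarith) hlN (by linarith)
  have h7 : 0 < Real.log 2 ^ s := by
    have : 0 < Real.log 2 := by linarith
    positivity
  have h8 : (n₁ : ℝ) ≤ n₁ / Real.log 2 ^ s * Real.log N ^ s := by
    calc (n₁ : ℝ) = n₁ / Real.log 2 ^ s * Real.log 2 ^ s := by field_simp
      _ ≤ n₁ / Real.log 2 ^ s * Real.log N ^ s := by gcongr
  calc ((badz (β - 1) ∩ Iic N).ncard : ℝ) ≤ n₁ + T.card := by exact_mod_cast hcard2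
    _ ≤ n₁ / Real.log 2 ^ s * Real.log N ^ s + F.toReal * (3 ^ s * Real.log N ^ s) := by
        have : F.toReal * (1 + Real.log N) ^ s ≤ F.toReal * (3 ^ s * Real.log N ^ s) := by gcongr
        linarith
    _ = _ := by ring

end Pool.Agent.K1H32.MB
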